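import Mathlib

set_option autoImplicit false

namespace Pool.Agent.Results.MP_673260_co.ManySplittings

/-- Finite permutations: a length `n` and a permutation of `Fin n` in one-line form. -/
abbrev FPerm : Type := Σ n : ℕ, Equiv.Perm (Fin n)

/-- The entries of `π` in the positions `S` are order-isomorphic to `σ`. -/
def PatternAt (π : FPerm) (S : Set (Fin π.1)) (σ : FPerm) : Prop :=
  ∃ f : Fin σ.1 ↪o Fin π.1, Set.range f = S ∧ ∀ i j, σ.2 i < σ.2 j ↔ π.2 (f i) < π.2 (f j)

/-- Pattern containment `σ ≤ π`. -/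
def Contains (π σ : FPerm) : Prop := ∃ S : Set (Fin π.1), PatternAt π S σ

/-- Permutation classes: closed downward under containment, containing the empty permutation. -/
structure IsClass (C : Set FPerm) : Prop where
  down : ∀ π ∈ C, ∀ σ, Contains π σ → σ ∈ C
  empty_mem : (⟨0, 1⟩ : FPerm) ∈ C

/-- The merge `A ⊙ B`: colour the positions red (`S`) and blue (`Sᶜ`). -/
def merge (A B : Set FPerm) : Set FPerm :=
  {π | ∃ S : Set (Fin π.1), (∃ σ ∈ A, PatternAt π S σ) ∧ (∃ τ ∈ B, PatternAt π Sᶜ τ)}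

/-- `C` is exact-splittable: `C = A ⊙ B` with classes `A, B` properly contained in `C`. -/
def ExactSplittable (C : Set FPerm) : Prop :=
  ∃ A B : Set FPerm, IsClass A ∧ IsClass B ∧ A ⊂ C ∧ B ⊂ C ∧ C = merge A B

/-- `IrreducibleSplitting C S`: the set of classes `S` is an irreducible exact-splitting of `C`. -/
inductive IrreducibleSplitting : Set FPerm → Set (Set FPerm) → Prop
  | irreducible (C : Set FPerm) : IsClass C → ¬ ExactSplittable C → IrreducibleSplitting C {C}
  | split (C A B : Set FPerm) (S T : Set (Set FPerm)) : IsClass A → IsClass B → A ⊂ C → B ⊂ C →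
      C = merge A B → IrreducibleSplitting A S → IrreducibleSplitting B T →
      IrreducibleSplitting C (S ∪ T)

/-! ### Basic facts -/

lemma patternAt_self (π : FPerm) : PatternAt π Set.univ π :=
  ⟨RelEmbedding.refl _, by ext x; simp, fun i j => Iff.rfl⟩

lemma contains_refl (π : FPerm) : Contains π π := ⟨_, patternAt_self π⟩

/-- standardization -/
lemma exists_pattern (π : FPerm) (S : Set (Fin π.1)) :
    ∃ σ : FPerm, σ.1 = S.ncard ∧ PatternAt π S σ := by
  classical
  obtain ⟨n, p⟩ := π
  set T : Finset (Fin n) := S.toFinset with hT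
  have hcard : T.card = S.ncard := by
    rw [Set.ncard_eq_toFinset_card']
  let e : Fin T.card ≃o T := T.orderIsoOfFin rfl
  let U : Finset (Fin n) := T.image p
  have hU : U.card = T.card := Finset.card_image_of_injective _ p.injective
  let e' : Fin T.card ≃o U := U.orderIsoOfFin hU
  let g : Fin T.card → Fin T.card := fun i =>
    e'.symm ⟨p (e i), Finset.mem_image_of_mem _ (e i).2⟩
  have hginj : Function.Injective g := by
    intro i j hij
    have h1 := e'.symm.injective hij
    have h2 : p (e i) = p (e j) := congrArg Subtype.val h1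
    have h3 : (e i : Fin n) = e j := p.injective h2
    exact e.injective (Subtype.ext h3)
  let q : Equiv.Perm (Fin T.card) := Equiv.ofBijective g (Finite.injective_iff_bijective.mp hginj)
  refine ⟨⟨T.card, q⟩, hcard, ?_⟩
  refine ⟨e.toOrderEmbedding.trans (OrderEmbedding.subtype _), ?_, ?_⟩
  · ext x
    simp only [Set.mem_range]
    constructor
    · rintro ⟨y, rfl⟩
      have h1 : ((e y : T) : Fin n) ∈ T := (e y).2
      exact Set.mem_toFinset.mp h1
    · intro hx
      have hx' : x ∈ T := by simpa [hT] using hx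
      refine ⟨e.symm ⟨x, hx'⟩, ?_⟩
      simp
  · intro i j
    change g i < g j ↔ p (e i) < p (e j)
    simp only [g]
    rw [e'.symm.lt_iff_lt]
    exact Iff.rfl

lemma PatternAt.card_eq {π σ : FPerm} {S : Set (Fin π.1)} (h : PatternAt π S σ) :
    σ.1 = S.ncard := by
  obtain ⟨f, hf, -⟩ := h
  rw [← hf, ← Set.image_univ, Set.ncard_image_of_injective _ f.injective, Set.ncard_univ]
  simp

lemma PatternAt.trans {π σ τ : FPerm} {S : Set (Fin π.1)} {T : Set (Fin σ.1)}
    {f : Fin σ.1 ↪o Fin π.1} (hf : ∀ i j, σ.2 i < σ.2 j ↔ π.2 (f i) < π.2 (f j))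
    (h : PatternAt σ T τ) (hS : f '' T = S) : PatternAt π S τ := by
  obtain ⟨g, hg, hg'⟩ := h
  refine ⟨g.trans f, ?_, ?_⟩
  · rw [← hS, ← hg]
    ext x
    simp
  · intro i j
    rw [hg', hf]
    rfl

lemma PatternAt.contains_of_subset {π σ τ : FPerm} {S T : Set (Fin π.1)}
    (h : PatternAt π S σ) (h' : PatternAt π T τ) (hTS : T ⊆ S) : Contains σ τ := by
  classical
  obtain ⟨f, hf, hf'⟩ := h
  obtain ⟨g, hg, hg'⟩ := h'
  have key : ∀ i, ∃ j, f j = g i := by
    intro i
    have : g i ∈ S := hTS (hg ▸ Set.mem_range_self i)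
    rw [← hf] at this
    exact this
  choose k hk using key
  have hmono : StrictMono k := by
    intro i j hij
    have : f (k i) < f (k j) := by rw [hk, hk]; exact g.strictMono hij
    exact f.lt_iff_lt.mp this
  refine ⟨_, OrderEmbedding.ofStrictMono k hmono, rfl, ?_⟩
  intro i j
  rw [hg', hf']
  simp [hk]

lemma PatternAt.contains {π σ : FPerm} {S : Set (Fin π.1)} (h : PatternAt π S σ) :
    Contains π σ := ⟨S, h⟩

lemma merge_isClass {A B : Set FPerm} (hA : IsClass A) (hB : IsClass B) :
    IsClass (merge A B) := by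
  constructor
  · rintro π ⟨S, ⟨σ, hσ, hσS⟩, ⟨τ, hτ, hτS⟩⟩ ρ ⟨R, h, hR, hh⟩
    refine ⟨h ⁻¹' S, ?_, ?_⟩
    · obtain ⟨σ', -, hσ'⟩ := exists_pattern ρ (h ⁻¹' S)
      refine ⟨σ', ?_, hσ'⟩
      have h1 : PatternAt π (h '' (h ⁻¹' S)) σ' := PatternAt.trans hh hσ' rfl
      exact hA.down σ hσ σ' (hσS.contains_of_subset h1 (Set.image_preimage_subset _ _))
    · obtain ⟨σ', -, hσ'⟩ := exists_pattern ρ (h ⁻¹' S)ᶜ
      refine ⟨σ', ?_, hσ'⟩
      have h1 : PatternAt π (h '' ((h ⁻¹' S)ᶜ)) σ' := PatternAt.trans hh hσ' rfl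
      refine hB.down τ hτ σ' (hτS.contains_of_subset h1 ?_)
      rintro _ ⟨x, hx, rfl⟩
      exact hx
  · refine ⟨∅, ⟨_, hA.empty_mem, ?_⟩, ⟨_, hB.empty_mem, ?_⟩⟩
    · exact ⟨RelEmbedding.refl _, by ext x; exact x.elim0, fun i => i.elim0⟩
    · exact ⟨RelEmbedding.refl _, by ext x; exact x.elim0, fun i => i.elim0⟩

lemma merge_comm (A B : Set FPerm) : merge A B = merge B A := by
  have key : ∀ A B : Set FPerm, merge A B ⊆ merge B A := by
    rintro A B π ⟨S, h1, h2⟩
    exact ⟨Sᶜ, h2, by rwa [compl_compl]⟩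
  exact Set.Subset.antisymm (key _ _) (key _ _)

lemma merge_mono {A B A' B' : Set FPerm} (hA : A ⊆ A') (hB : B ⊆ B') :
    merge A B ⊆ merge A' B' := by
  rintro π ⟨S, ⟨σ, hσ, h1⟩, ⟨τ, hτ, h2⟩⟩
  exact ⟨S, ⟨σ, hA hσ, h1⟩, ⟨τ, hB hτ, h2⟩⟩

lemma patternAt_empty (π : FPerm) : PatternAt π ∅ ⟨0, 1⟩ := by
  refine ⟨⟨⟨fun i => i.elim0, fun i => i.elim0⟩, fun {i} => i.elim0⟩, ?_, fun i => i.elim0⟩
  ext x
  simp

lemma left_subset_merge {A B : Set FPerm} (hB : IsClass B) : A ⊆ merge A B := by
  intro π hπ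
  exact ⟨Set.univ, ⟨π, hπ, patternAt_self π⟩, ⟨_, hB.empty_mem, by
    rw [Set.compl_univ]; exact patternAt_empty π⟩⟩

lemma right_subset_merge {A B : Set FPerm} (hA : IsClass A) : B ⊆ merge A B := by
  rw [merge_comm]; exact left_subset_merge hA

/-! ### Monotone permutations -/

/-- increasing or decreasing permutations -/
def Mono : Set FPerm := {π | StrictMono π.2 ∨ StrictAnti π.2}

/-- the classes used: monotone permutations together with all permutations of length at most i -/
def K (i : ℕ) : Set FPerm := {π | π ∈ Mono ∨ π.1 ≤ i}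

lemma mono_down {π σ : FPerm} (h : Contains π σ) (hπ : π ∈ Mono) : σ ∈ Mono := by
  obtain ⟨S, f, hf, hf'⟩ := h
  rcases hπ with h | h
  · left
    intro i j hij
    rw [hf']
    exact h (f.strictMono hij)
  · right
    intro i j hij
    rw [hf']
    exact h (f.strictMono hij)

lemma contains_length {π σ : FPerm} (h : Contains π σ) : σ.1 ≤ π.1 := by
  obtain ⟨S, f, hf, hf'⟩ := h
  simpa using Fintype.card_le_of_injective f f.injective

lemma K_isClass (i : ℕ) : IsClass (K i) := by
  constructor
  · rintro π hπ σ h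
    rcases hπ with hπ | hπ
    · exact Or.inl (mono_down h hπ)
    · exact Or.inr ((contains_length h).trans hπ)
  · exact Or.inr (Nat.zero_le _)

/-- the increasing permutation -/
abbrev inc (n : ℕ) : FPerm := ⟨n, 1⟩

lemma inc_mem_K (n i : ℕ) : inc n ∈ K i := Or.inl (Or.inl (fun _ _ h => h))

lemma eq_inc_of_strictMono {π : FPerm} (h : StrictMono π.2) : π = inc π.1 := by
  obtain ⟨n, p⟩ := π
  have : p = 1 := by
    have h1 : StrictMono (p : Fin n → Fin n) := h
    ext i
    have := congrArg (fun e : Fin n ≃o Fin n => ((e i : Fin n) : ℕ))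
      (Subsingleton.elim (StrictMono.orderIsoOfSurjective p h1 p.surjective) (OrderIso.refl _))
    simpa using this
  subst this
  rfl

lemma patternAt_mk {n m : ℕ} {p : Equiv.Perm (Fin n)} {q : Equiv.Perm (Fin m)} {S : Set (Fin n)}
    (f : Fin m → Fin n) (hf : StrictMono f) (hS : Set.range f = S)
    (h : ∀ i j : Fin m, q i < q j ↔ p (f i) < p (f j)) : PatternAt ⟨n, p⟩ S ⟨m, q⟩ :=
  ⟨OrderEmbedding.ofStrictMono f hf, hS, h⟩

lemma contains_inc {m n : ℕ} (h : m ≤ n) : Contains (inc n) (inc m) :=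
  ⟨_, patternAt_mk (Fin.castLE h) (Fin.strictMono_castLE h) rfl (fun i j => by simp)⟩

/-- the permutation of length n+3 swapping the first two entries -/
def swp (n : ℕ) : Equiv.Perm (Fin (n + 3)) := Equiv.swap ⟨0, by omega⟩ ⟨1, by omega⟩

/-- the same as an element of `FPerm` -/
abbrev sw (n : ℕ) : FPerm := ⟨n + 3, swp n⟩

lemma swp_zero (n : ℕ) : swp n ⟨0, by omega⟩ = ⟨1, by omega⟩ := Equiv.swap_apply_left _ _

lemma swp_one (n : ℕ) : swp n ⟨1, by omega⟩ = ⟨0, by omega⟩ := Equiv.swap_apply_right _ _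

lemma swp_of_ge (n : ℕ) (k : Fin (n + 3)) (hk : 2 ≤ k.val) : swp n k = k := by
  apply Equiv.swap_apply_of_ne_of_ne
  · rintro rfl; simp at hk
  · rintro rfl; simp at hk

lemma sw_not_mono (n : ℕ) : sw n ∉ Mono := by
  rintro (h | h)
  · have h2 : swp n ⟨0, by omega⟩ < swp n ⟨1, by omega⟩ :=
      h (Fin.mk_lt_mk.mpr (by omega))
    rw [swp_zero, swp_one, Fin.mk_lt_mk] at h2
    omega
  · have h2 : swp n ⟨2, by omega⟩ < swp n ⟨1, by omega⟩ :=
      h (Fin.mk_lt_mk.mpr (by omega))
    rw [swp_of_ge n ⟨2, by omega⟩ (le_refl _), swp_one, Fin.mk_lt_mk] at h2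
    omega

lemma contains_inc_one {τ : FPerm} (h : 1 ≤ τ.1) : Contains τ (inc 1) := by
  obtain ⟨n, p⟩ := τ
  refine ⟨_, patternAt_mk (fun _ : Fin 1 => (⟨0, h⟩ : Fin n)) ?_ rfl ?_⟩
  · intro i j hij
    exact absurd hij (by rw [Subsingleton.elim i j]; exact lt_irrefl _)
  · intro i j
    rw [Subsingleton.elim i j]
    simp

lemma sw_mem_merge {P Q : Set FPerm} (hP : ∀ n, inc n ∈ P) (hQ : inc 1 ∈ Q) (n : ℕ) :
    sw n ∈ merge P Q := by
  refine ⟨Set.range (Fin.succ : Fin (n + 2) → Fin (n + 3)), ⟨inc (n + 2), hP _, ?_⟩,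
    ⟨inc 1, hQ, ?_⟩⟩
  · have key : StrictMono (fun i : Fin (n + 2) => swp n i.succ) := by
      intro i j hij
      have hj : 2 ≤ (Fin.succ j : Fin (n + 3)).val := by
        rw [Fin.val_succ]
        have : i.val < j.val := hij
        omega
      change swp n i.succ < swp n j.succ
      rw [swp_of_ge n _ hj]
      by_cases hi : i.val = 0
      · have : (Fin.succ i : Fin (n + 3)) = ⟨1, by omega⟩ := by
          ext; simp [hi]
        rw [this, swp_one, Fin.lt_def]
        change (0 : ℕ) < (Fin.succ j : Fin (n + 3)).val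
        omega
      · rw [swp_of_ge n _ (by rw [Fin.val_succ]; omega)]
        exact Fin.strictMono_succ hij
    refine patternAt_mk _ Fin.strictMono_succ rfl ?_
    intro i j
    exact (key.lt_iff_lt (a := i) (b := j)).symm
  · refine patternAt_mk (fun _ : Fin 1 => (⟨0, by omega⟩ : Fin (n + 3))) ?_ ?_ ?_
    · intro i j hij
      exact absurd hij (by rw [Subsingleton.elim i j]; exact lt_irrefl _)
    · ext x
      simp only [Set.mem_range, exists_const, Set.mem_compl_iff, not_exists]
      constructor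
      · rintro rfl y hy
        exact absurd (congrArg Fin.val hy) (by simp)
      · intro h
        by_contra hx
        have hx0 : x.val ≠ 0 := fun h0 => hx (Fin.ext h0.symm)
        refine h ⟨x.val - 1, by have := x.isLt; omega⟩ ?_
        apply Fin.ext
        rw [Fin.val_succ]
        change x.val - 1 + 1 = x.val
        omega
    · intro i j
      rw [Subsingleton.elim i j]
      simp

lemma mono_inc_of_contains {n : ℕ} {σ : FPerm} (h : Contains (inc n) σ) : σ = inc σ.1 := by
  apply eq_inc_of_strictMono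
  obtain ⟨S, f, hf, hf'⟩ := h
  intro i j hij
  rw [hf']
  exact f.strictMono hij

lemma not_exactSplittable_K (i : ℕ) : ¬ ExactSplittable (K i) := by
  have aux : ∀ P Q : Set FPerm, IsClass P → IsClass Q → P ⊂ K i → K i = merge P Q →
      (∀ n, inc n ∈ P) → False := by
    intro P Q hP hQ hPK hK hinc
    have h1 : inc 1 ∈ Q := by
      by_contra hne
      apply hPK.2
      rw [hK]
      rintro π ⟨S, ⟨σ, hσ, hσS⟩, ⟨τ, hτ, hτS⟩⟩
      have hτ0 : τ.1 = 0 := by
        by_contra h0
        exact hne (hQ.down τ hτ _ (contains_inc_one (by omega)))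
      have hS : Sᶜ = ∅ := by
        have := hτS.card_eq
        rw [hτ0] at this
        exact (Set.ncard_eq_zero (Set.toFinite _)).mp this.symm
      have hS' : S = Set.univ := Set.compl_empty_iff.mp hS
      subst hS'
      exact hP.down σ hσ π (hσS.contains_of_subset (patternAt_self π) (Set.Subset.refl _))
    have h2 := sw_mem_merge hinc h1 i
    rw [← hK] at h2
    rcases h2 with h2 | h2
    · exact sw_not_mono i h2
    · change i + 3 ≤ i at h2
      omega
  rintro ⟨P, Q, hP, hQ, hPK, hQK, hK⟩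
  have key : ∀ n, inc n ∈ P ∨ inc n ∈ Q := by
    intro n
    have h : inc (2 * n) ∈ merge P Q := by
      rw [← hK]; exact inc_mem_K _ _
    obtain ⟨S, ⟨σ, hσ, hσS⟩, ⟨τ, hτ, hτS⟩⟩ := h
    have h1 := mono_inc_of_contains hσS.contains
    have h2 := mono_inc_of_contains hτS.contains
    have h3 := hσS.card_eq
    have h4 := hτS.card_eq
    have h5 : S.ncard + Sᶜ.ncard = 2 * n := by
      rw [Set.ncard_add_ncard_compl]
      simp
    rcases le_or_gt n σ.1 with h | h
    · left
      rw [h1] at hσ
      exact hP.down _ hσ _ (contains_inc h)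
    · right
      rw [h2] at hτ
      exact hQ.down _ hτ _ (contains_inc (by omega))
  by_cases hPall : ∀ n, inc n ∈ P
  · exact aux P Q hP hQ hPK hK hPall
  · by_cases hQall : ∀ n, inc n ∈ Q
    · exact aux Q P hQ hP hQK (by rw [merge_comm]; exact hK) hQall
    · push Not at hPall hQall
      obtain ⟨a, ha⟩ := hPall
      obtain ⟨b, hb⟩ := hQall
      rcases key (max a b) with h | h
      · exact ha (hP.down _ h _ (contains_inc (le_max_left _ _)))
      · exact hb (hQ.down _ h _ (contains_inc (le_max_right _ _)))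

lemma K_mono {i j : ℕ} (h : i ≤ j) : K i ⊆ K j := by
  rintro π (h1 | h1)
  · exact Or.inl h1
  · exact Or.inr (h1.trans h)

lemma K_infinite (i : ℕ) : (K i).Infinite := by
  apply Set.infinite_of_injective_forall_mem (f := inc)
  · intro a b h
    exact congrArg Sigma.fst h
  · intro n
    exact inc_mem_K n i

lemma K_ne {i j : ℕ} (hi : 2 ≤ i) (hij : i < j) : K i ≠ K j := by
  intro h
  have h1 : sw (j - 3) ∈ K j := by
    right
    change j - 3 + 3 ≤ j
    omega
  rw [← h] at h1
  rcases h1 with h1 | h1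
  · exact sw_not_mono _ h1
  · change j - 3 + 3 ≤ i at h1
    omega

/-! ### Monotone subsequences (the standard pigeonhole argument) -/

section ES

open Finset Function

variable {α β : Type*} [Fintype α] [LinearOrder α] [LinearOrder β]

/-- lengths of increasing sequences ending at i -/
noncomputable def incTo (f : α → β) (i : α) : Finset ℕ :=
  open scoped Classical in
  image card ({t : Finset α | IsGreatest (t : Set α) i ∧ StrictMonoOn f t} : Finset (Finset α))

lemma one_mem_incTo (f : α → β) (i : α) : 1 ∈ incTo f i := by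
  classical
  exact mem_image.2 ⟨{i}, by simp⟩

/-- maximal length of an increasing sequence ending at i -/
noncomputable def maxInc (f : α → β) (i : α) : ℕ := max' (incTo f i) ⟨1, one_mem_incTo f i⟩

lemma maxInc_lt (f : α → β) {i j : α} (hij : i < j) (hfij : f i < f j) :
    maxInc f i < maxInc f j := by
  classical
  rw [Nat.lt_iff_add_one_le]
  refine le_max' _ _ ?_
  have h0 : maxInc f i ∈ incTo f i := max'_mem _ _
  simp only [incTo, mem_image, mem_filter, mem_univ, true_and, and_assoc] at h0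
  obtain ⟨t, hti, ht₁, ht₂⟩ := h0
  simp only [incTo, mem_image, mem_filter, mem_univ, true_and, and_assoc]
  have h1 : ∀ x ∈ t, x < j := fun x hx => (hti.2 hx).trans_lt hij
  refine ⟨insert j t, ?_, ?_, ?_⟩
  · constructor
    · simp
    · intro x hx
      rw [mem_coe, mem_insert] at hx
      rcases hx with rfl | hx
      · exact le_refl _
      · exact (h1 x hx).le
  · intro x hx y hy hxy
    rw [mem_coe, mem_insert] at hx hy
    rcases hx with rfl | hx
    · rcases hy with rfl | hy
      · exact absurd hxy (lt_irrefl _)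
      · exact absurd hxy (not_lt.mpr (h1 y hy).le)
    · rcases hy with rfl | hy
      · exact (ht₁.monotoneOn hx hti.1 (hti.2 hx)).trans_lt hfij
      · exact ht₁ hx hy hxy
  · have : j ∉ t := fun hj => lt_irrefl _ (h1 _ hj)
    rw [card_insert_of_notMem this, ht₂]

/-- Every injective map from a linear order with more than r*r elements has a strictly monotone
restriction to a set with more than r elements. -/
lemma exists_monotone_subset {r : ℕ} {f : α → β} (hn : r * r < Fintype.card α)
    (hf : Injective f) :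
    ∃ t : Finset α, r < t.card ∧ (StrictMonoOn f t ∨ StrictAntiOn f t) := by
  classical
  by_contra! q
  let g : α → βᵒᵈ := fun x => OrderDual.toDual (f x)
  have h1 : ∀ i, maxInc f i ≤ r := by
    intro i
    by_contra h
    have h0 : maxInc f i ∈ incTo f i := max'_mem _ _
    simp only [incTo, mem_image, mem_filter, mem_univ, true_and, and_assoc] at h0
    obtain ⟨t, hti, ht₁, ht₂⟩ := h0
    exact (q t (by omega)).1 ht₁
  have h2 : ∀ i, maxInc g i ≤ r := by
    intro i
    by_contra h
    have h0 : maxInc g i ∈ incTo g i := max'_mem _ _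
    simp only [incTo, mem_image, mem_filter, mem_univ, true_and, and_assoc] at h0
    obtain ⟨t, hti, ht₁, ht₂⟩ := h0
    exact (q t (by omega)).2 (fun x hx y hy hxy => ht₁ hx hy hxy)
  have h3 : ∀ i, 1 ≤ maxInc f i := fun i => le_max' _ _ (one_mem_incTo f i)
  have h4 : ∀ i, 1 ≤ maxInc g i := fun i => le_max' _ _ (one_mem_incTo g i)
  have hinj : Injective (fun i => (maxInc f i, maxInc g i)) := by
    apply Injective.of_lt_imp_ne
    intro i j hij hq
    rcases lt_or_gt_of_ne (hf.ne hij.ne) with h | h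
    · exact (maxInc_lt f hij h).ne (congrArg Prod.fst hq)
    · exact (maxInc_lt g hij (show g i < g j from h)).ne (congrArg Prod.snd hq)
  have hmaps : Set.MapsTo (fun i => (maxInc f i, maxInc g i)) (univ : Finset α)
      (Icc 1 r ×ˢ Icc 1 r : Finset (ℕ × ℕ)) := by
    intro i _
    simp [h1 i, h2 i, h3 i, h4 i]
  refine hn.not_ge ?_
  simpa using card_le_card_of_injOn _ hmaps hinj.injOn

end ES

/-- The key identity. -/
lemma merge_K_eq {i N : ℕ} (h : i * i ≤ N) : merge (K i) (K N) = merge (K 0) (K N) := by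
  apply Set.Subset.antisymm _ (merge_mono (K_mono (Nat.zero_le _)) (Set.Subset.refl _))
  have hiN : i ≤ N := (Nat.le_mul_self i).trans h
  rintro π ⟨S, ⟨σ, hσ, hσS⟩, ⟨τ, hτ, hτS⟩⟩
  have hlen : σ.1 + τ.1 = π.1 := by
    rw [hσS.card_eq, hτS.card_eq, Set.ncard_add_ncard_compl]
    simp
  rcases hσ with hσ | hσ
  · exact ⟨S, ⟨σ, Or.inl hσ, hσS⟩, ⟨τ, hτ, hτS⟩⟩
  rcases hτ with hτ | hτ
  · exact ⟨Sᶜ, ⟨τ, Or.inl hτ, hτS⟩, ⟨σ, Or.inr (hσ.trans hiN), by rwa [compl_compl]⟩⟩
  by_cases hπ : π.1 ≤ N
  · exact right_subset_merge (K_isClass 0) (Or.inr hπ)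
  push Not at hπ
  have hi : 1 ≤ i := by omega
  have hcard : (i - 1) * (i - 1) < Fintype.card (Fin π.1) := by
    rw [Fintype.card_fin]
    have : (i - 1) * (i - 1) ≤ i * i := Nat.mul_le_mul (by omega) (by omega)
    omega
  obtain ⟨t, ht, hmono⟩ := exists_monotone_subset hcard π.2.injective
  obtain ⟨ρ, hρ1, hρ⟩ := exists_pattern π (t : Set (Fin π.1))
  obtain ⟨ρ', hρ'1, hρ'⟩ := exists_pattern π (t : Set (Fin π.1))ᶜ
  have hlen' : ρ.1 + ρ'.1 = π.1 := by
    rw [hρ1, hρ'1, Set.ncard_add_ncard_compl]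
    simp
  rw [Set.ncard_coe_finset] at hρ1
  refine ⟨t, ⟨ρ, Or.inl ?_, hρ⟩, ⟨ρ', Or.inr (by omega), hρ'⟩⟩
  obtain ⟨f, hf, hf'⟩ := hρ
  have hmem : ∀ a, f a ∈ (t : Set (Fin π.1)) := fun a => hf ▸ Set.mem_range_self a
  rcases hmono with hm | hm
  · left
    intro a b hab
    rw [hf']
    exact hm (hmem a) (hmem b) (f.strictMono hab)
  · right
    intro a b hab
    rw [hf']
    exact hm (hmem a) (hmem b) (f.strictMono hab)

lemma K_ssubset_merge (i j : ℕ) : K i ⊂ merge (K i) (K j) := by
  refine ⟨left_subset_merge (K_isClass j), fun h => ?_⟩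
  have h1 := h (sw_mem_merge (fun n => inc_mem_K n i) (inc_mem_K 1 j) i)
  rcases h1 with h1 | h1
  · exact sw_not_mono _ h1
  · change i + 3 ≤ i at h1
    omega

/-- For every `m` there is an infinite permutation class with at least `m` different irreducible
exact-splittings, all of whose members are infinite classes. -/
theorem result (m : ℕ) : ∃ C : Set FPerm, IsClass C ∧ C.Infinite ∧
    ∃ F : Fin m → Set (Set FPerm), Function.Injective F ∧
      ∀ i, IrreducibleSplitting C (F i) ∧ ∀ A ∈ F i, A.Infinite := by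
  set N : ℕ := (m + 2) * (m + 2) with hN
  have hNm : m + 2 ≤ N := Nat.le_mul_self _
  refine ⟨merge (K 0) (K N), merge_isClass (K_isClass _) (K_isClass _),
    (K_infinite 0).mono (left_subset_merge (K_isClass _)),
    fun i => {K (i.val + 2)} ∪ {K N}, ?_, ?_⟩
  · intro i j hij
    have h1 : K (i.val + 2) ∈ ({K (j.val + 2)} ∪ {K N} : Set (Set FPerm)) := by
      have h2 : K (i.val + 2) ∈ ({K (i.val + 2)} ∪ {K N} : Set (Set FPerm)) :=
        Or.inl rfl
      have h3 : ({K (i.val + 2)} ∪ {K N} : Set (Set FPerm)) = {K (j.val + 2)} ∪ {K N} := hij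
      rwa [h3] at h2
    have hi := i.isLt
    have hj := j.isLt
    rcases h1 with h1 | h1
    · have h2 : K (i.val + 2) = K (j.val + 2) := h1
      by_contra hne
      have hne' : i.val ≠ j.val := fun h => hne (Fin.ext h)
      rcases lt_or_gt_of_ne hne' with hlt | hlt
      · exact K_ne (by omega) (by omega) h2
      · exact K_ne (by omega) (by omega) h2.symm
    · have h2 : K (i.val + 2) = K N := h1
      exact absurd h2 (K_ne (by omega) (by omega))
  · intro i
    have hi := i.isLt
    have hsq : (i.val + 2) * (i.val + 2) ≤ N := Nat.mul_le_mul (by omega) (by omega)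
    have hC := merge_K_eq hsq
    refine ⟨?_, ?_⟩
    · refine IrreducibleSplitting.split _ (K (i.val + 2)) (K N) _ _ (K_isClass _) (K_isClass _)
        ?_ ?_ hC.symm (IrreducibleSplitting.irreducible _ (K_isClass _) (not_exactSplittable_K _))
        (IrreducibleSplitting.irreducible _ (K_isClass _) (not_exactSplittable_K _))
      · rw [← hC]; exact K_ssubset_merge _ _
      · rw [merge_comm]; exact K_ssubset_merge _ _
    · rintro A (hA | hA)
      · rw [show A = _ from hA]; exact K_infinite _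
      · rw [show A = _ from hA]; exact K_infinite _

end Pool.Agent.Results.MP_673260_co.ManySplittings
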